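import Pool.Agent.Lib.MP_240120_one.Defs

set_option autoImplicit false

/-!
# Isometries of the algebraic Mukai lattice
-/

namespace Pool.Agent.Lib.MP_240120_one

/-- additive isometries which act as `1` or `-1` on the discriminant group -/
structure Nice (n : ℤ) (f : Vec → Vec) : Prop where
  add : ∀ v w, f (v + w) = f v + f w
  iso : ∀ v w, pair n (f v) (f w) = pair n v w
  disc : ∃ (ε : ℤ) (l : Vec), (ε = 1 ∨ ε = -1) ∧ f (0, 1, 0) = ε • (0, 1, 0) + (2 * n) • l

theorem Nice.smul {n : ℤ} {f : Vec → Vec} (h : Nice n f) (z : ℤ) (v : Vec) : f (z • v) = z • f v :=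
  (AddMonoidHom.mk' f h.add).map_zsmul z v

theorem Nice.id (n : ℤ) : Nice n (fun v => v) :=
  ⟨fun _ _ => rfl, fun _ _ => rfl, 1, 0, Or.inl rfl, by simp⟩

theorem Nice.comp {n : ℤ} {f g : Vec → Vec} (hf : Nice n f) (hg : Nice n g) :
    Nice n (fun v => f (g v)) := by
  refine ⟨fun v w => by rw [hg.add, hf.add], fun v w => by rw [hf.iso, hg.iso], ?_⟩
  obtain ⟨ε, l, hε, hl⟩ := hf.disc
  obtain ⟨ε', l', hε', hl'⟩ := hg.disc
  refine ⟨ε' * ε, ε' • l + f l', ?_, ?_⟩
  · rcases hε with rfl | rfl <;> rcases hε' with rfl | rfl <;> simp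
  · rw [hl', hf.add, hf.smul, hf.smul, hl]
    module

/-- ring identities on triples -/
theorem pair_add_left (n : ℤ) (u v w : Vec) : pair n (u + v) w = pair n u w + pair n v w := by
  simp only [pair, Prod.fst_add, Prod.snd_add]; ring

theorem pair_smul_left (n z : ℤ) (v w : Vec) : pair n (z • v) w = z * pair n v w := by
  simp only [pair, Prod.smul_fst, Prod.smul_snd, smul_eq_mul]; ring

theorem pair_comm (n : ℤ) (v w : Vec) : pair n v w = pair n w v := by
  simp only [pair]; ring

theorem pair_add_right (n : ℤ) (u v w : Vec) : pair n u (v + w) = pair n u v + pair n u w := by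
  rw [pair_comm, pair_add_left, pair_comm n v, pair_comm n w]

theorem pair_smul_right (n z : ℤ) (v w : Vec) : pair n v (z • w) = z * pair n v w := by
  rw [pair_comm, pair_smul_left, pair_comm n w]

theorem refl_eq (n e : ℤ) (δ v : Vec) : refl n e δ v = v + (-(e * pair n v δ)) • δ := by
  unfold refl; module

theorem transvection_eq (n : ℤ) (d u v : Vec) : transvection n d u v = v + pair n v d • u +
    (-(pair n v u + (n * (u.2.1 * u.2.1) - u.1 * u.2.2) * pair n v d)) • d := by
  unfold transvection; module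

theorem pair_self_eq (n : ℤ) (u : Vec) : pair n u u = 2 * (n * (u.2.1 * u.2.1) - u.1 * u.2.2) := by
  simp only [pair]; ring

theorem nice_neg (n : ℤ) : Nice n (fun v => -v) := by
  refine ⟨fun v w => by simp only [neg_add_rev]; abel, fun v w => ?_, -1, 0, Or.inr rfl, by simp⟩
  simp only [pair, Prod.fst_neg, Prod.snd_neg]; ring

theorem nice_dual (n : ℤ) : Nice n (fun v => (v.1, -v.2.1, v.2.2)) := by
  refine ⟨fun v w => ?_, fun v w => ?_, -1, 0, Or.inr rfl, by simp⟩
  · ext <;> simp; ring
  · simp only [pair]; ring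

theorem nice_refl {n e : ℤ} {δ : Vec} (he : e = 1 ∨ e = -1) (hδ : pair n δ δ = 2 * e) :
    Nice n (refl n e δ) := by
  refine ⟨fun v w => ?_, fun v w => ?_, 1, (-(e * δ.2.1)) • δ, Or.inl rfl, ?_⟩
  · simp only [refl_eq, pair_add_left]; module
  · simp only [refl_eq, pair_add_left, pair_add_right, pair_smul_left, pair_smul_right, hδ,
      pair_comm n δ w]
    have h2 : e * e = 1 := by rcases he with rfl | rfl <;> norm_num
    linear_combination (2 * pair n v δ * pair n w δ * e) * h2
  · have h : pair n (0, 1, 0) δ = 2 * n * δ.2.1 := by simp only [pair]; ring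
    rw [refl_eq, h]
    module

theorem nice_transvection {n : ℤ} {d u : Vec} (hd : pair n d d = 0) (hu : pair n d u = 0) :
    Nice n (transvection n d u) := by
  refine ⟨fun v w => ?_, fun v w => ?_, 1,
    d.2.1 • u - (u.2.1 + (n * (u.2.1 * u.2.1) - u.1 * u.2.2) * d.2.1) • d, Or.inl rfl, ?_⟩
  · simp only [transvection_eq, pair_add_left]; module
  · have hu' : pair n u d = 0 := by rw [pair_comm, hu]
    simp only [transvection_eq, pair_add_left, pair_add_right, pair_smul_left, pair_smul_right, hd,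
      hu, hu', pair_self_eq n u, pair_comm n d w, pair_comm n u w]
    ring
  · have h : ∀ x : Vec, pair n (0, 1, 0) x = 2 * n * x.2.1 := fun x => by simp only [pair]; ring
    rw [transvection_eq, h, h]
    module

theorem Gen.nice {n : ℤ} {f : Vec → Vec} (h : Gen n f) : Nice n f := by
  induction h with
  | id => exact Nice.id n
  | neg _ ih => exact (nice_neg n).comp ih
  | dual _ ih => exact (nice_dual n).comp ih
  | refl e δ he hδ _ ih => exact (nice_refl he hδ).comp ih
  | transvection d u hd hu _ ih => exact (nice_transvection hd hu).comp ih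

theorem Gen.comp {n : ℤ} {f g : Vec → Vec} (hf : Gen n f) (hg : Gen n g) :
    Gen n (fun v => f (g v)) := by
  induction hf with
  | id => exact hg
  | neg _ ih => exact ih.neg
  | dual _ ih => exact ih.dual
  | refl e δ he hδ _ ih => exact ih.refl e δ he hδ
  | transvection d u hd hu _ ih => exact ih.transvection d u hd hu

/-- compositions with an inverse of the same kind -/
def Rev (n : ℤ) (f : Vec → Vec) : Prop := Gen n f ∧ ∃ g, Gen n g ∧ ∀ v, g (f v) = v

theorem Rev.id (n : ℤ) : Rev n (fun v => v) := ⟨Gen.id, _, Gen.id, fun _ => rfl⟩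

theorem Rev.comp {n : ℤ} {f g : Vec → Vec} (hf : Rev n f) (hg : Rev n g) :
    Rev n (fun v => f (g v)) := by
  obtain ⟨hf1, f', hf2, hf3⟩ := hf
  obtain ⟨hg1, g', hg2, hg3⟩ := hg
  exact ⟨hf1.comp hg1, _, hg2.comp hf2, fun v => by simp only [hf3, hg3]⟩

theorem rev_neg (n : ℤ) : Rev n (fun v => -v) :=
  ⟨Gen.id.neg, _, Gen.id.neg, fun v => neg_neg v⟩

theorem rev_dual (n : ℤ) : Rev n (fun v => (v.1, -v.2.1, v.2.2)) :=
  ⟨Gen.id.dual, _, Gen.id.dual, fun v => by simp⟩

theorem rev_refl {n e : ℤ} {δ : Vec} (he : e = 1 ∨ e = -1) (hδ : pair n δ δ = 2 * e) :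
    Rev n (refl n e δ) := by
  refine ⟨Gen.id.refl e δ he hδ, _, Gen.id.refl e δ he hδ, fun v => ?_⟩
  simp only [refl_eq, pair_add_left, pair_smul_left, hδ]
  have h2 : e * e = 1 := by rcases he with rfl | rfl <;> norm_num
  have h3 : (-(e * (pair n v δ + -(e * pair n v δ) * (2 * e)))) = e * pair n v δ := by
    linear_combination (2 * pair n v δ * e) * h2
  rw [h3]
  module

theorem rev_transvection {n : ℤ} {d u : Vec} (hd : pair n d d = 0) (hu : pair n d u = 0) :
    Rev n (transvection n d u) := by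
  have hu1 : pair n d (-u) = 0 := by
    have : pair n d (-u) = -pair n d u := by
      simp only [pair, Prod.fst_neg, Prod.snd_neg]; ring
    rw [this, hu, neg_zero]
  refine ⟨Gen.id.transvection d u hd hu, _, Gen.id.transvection d (-u) hd hu1, fun v => ?_⟩
  have hu' : pair n u d = 0 := by rw [pair_comm, hu]
  have h3 : ∀ x : Vec, pair n x (-u) = -pair n x u := fun x => by
    simp only [pair, Prod.fst_neg, Prod.snd_neg]; ring
  have h4 : ((-u).2.1 * (-u).2.1) = u.2.1 * u.2.1 := by simp
  have h5 : (-u).1 * (-u).2.2 = u.1 * u.2.2 := by simp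
  simp only [transvection_eq, pair_add_left, pair_smul_left, hd, hu', hu, h3, h4, h5,
    pair_self_eq n u]
  module

end Pool.Agent.Lib.MP_240120_one
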