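import Pool.Agent.Lib.MP_240120_one.Orbit

set_option autoImplicit false

/-!
# Certificates for the Euclidean algorithm
-/

namespace Pool.Agent.Lib.MP_240120_one

inductive Mv
  | dual
  | line (m : ℤ)
  | refl (e a b c : ℤ)
  | tran (a b c a' b' c' : ℤ)

def Mv.ap (n : ℤ) : Mv → Vec → Vec
  | .dual, v => (v.1, -v.2.1, v.2.2)
  | .line m, v => (v.1, v.2.1 + m * v.1, v.2.2 + 2 * n * m * v.2.1 + n * m * m * v.1)
  | .refl e a b c, v =>
    let t := e * (2 * n * (v.2.1 * b) - v.1 * c - v.2.2 * a)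
    (v.1 - t * a, v.2.1 - t * b, v.2.2 - t * c)
  | .tran a b c a' b' c', v =>
    let p := 2 * n * (v.2.1 * b) - v.1 * c - v.2.2 * a
    let q := 2 * n * (v.2.1 * b') - v.1 * c' - v.2.2 * a'
    let t := q + (n * (b' * b') - a' * c') * p
    (v.1 + p * a' - t * a, v.2.1 + p * b' - t * b, v.2.2 + p * c' - t * c)

def Mv.ok (n : ℤ) : Mv → Bool
  | .dual => true
  | .line _ => true
  | .refl e a b c => (decide (e = 1) || decide (e = -1)) &&
      decide (2 * n * (b * b) - a * c - c * a = 2 * e)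
  | .tran a b c a' b' c' => decide (2 * n * (b * b) - a * c - c * a = 0) &&
      decide (2 * n * (b * b') - a * c' - c * a' = 0)

theorem Mv.rev {n : ℤ} {m : Mv} (h : m.ok n = true) : Rev n (m.ap n) := by
  cases m with
  | dual => exact rev_dual n
  | line m =>
    have hd : pair n ((0, 0, 1) : Vec) (0, 0, 1) = 0 := by simp [pair]
    have hu : pair n ((0, 0, 1) : Vec) (0, -m, 0) = 0 := by simp [pair]
    have h1 := rev_transvection hd hu
    have h2 : (Mv.line m).ap n = transvection n (0, 0, 1) (0, -m, 0) := by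
      funext v
      ext
      · simp [Mv.ap, transvection, pair]
      · simp [Mv.ap, transvection, pair]; ring
      · simp [Mv.ap, transvection, pair]; ring
    rw [h2]; exact h1
  | refl e a b c =>
    simp only [Mv.ok, Bool.and_eq_true, Bool.or_eq_true, decide_eq_true_eq] at h
    have h1 := rev_refl (n := n) (δ := (a, b, c)) h.1 h.2
    have h2 : (Mv.refl e a b c).ap n = MP_240120_one.refl n e (a, b, c) := by
      funext v
      ext <;> simp [Mv.ap, MP_240120_one.refl, pair]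
    rw [h2]; exact h1
  | tran a b c a' b' c' =>
    simp only [Mv.ok, Bool.and_eq_true, decide_eq_true_eq] at h
    have h1 := rev_transvection (n := n) (d := (a, b, c)) (u := (a', b', c')) h.1 h.2
    have h2 : (Mv.tran a b c a' b' c').ap n = transvection n (a, b, c) (a', b', c') := by
      funext v
      ext <;> simp [Mv.ap, transvection, pair]
    rw [h2]; exact h1

/-- the composition of the moves of a word, the first one is applied first -/
def apw (n : ℤ) : List Mv → Vec → Vec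
  | [], v => v
  | m :: w, v => apw n w (m.ap n v)

theorem apw_rev {n : ℤ} : ∀ {w : List Mv}, w.all (Mv.ok n) = true → Rev n (apw n w)
  | [], _ => Rev.id n
  | m :: w, h => by
    simp only [List.all_cons, Bool.and_eq_true] at h
    exact (apw_rev h.2).comp (Mv.rev h.1)

/-- the first coordinate of the composition -/
def coefs (n : ℤ) (w : List Mv) : ℤ × ℤ × ℤ :=
  ((apw n w (1, 0, 0)).1, (apw n w (0, 1, 0)).1, (apw n w (0, 0, 1)).1)

theorem apw_fst {n : ℤ} {w : List Mv} (h : w.all (Mv.ok n) = true) (v : Vec) :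
    (apw n w v).1 = (coefs n w).1 * v.1 + (coefs n w).2.1 * v.2.1 + (coefs n w).2.2 * v.2.2 := by
  have hN := (apw_rev h).1.nice
  have hv : v = v.1 • ((1, 0, 0) : Vec) + (v.2.1 • ((0, 1, 0) : Vec) + v.2.2 • ((0, 0, 1) : Vec)) := by
    ext <;> simp
  conv_lhs => rw [hv, hN.add, hN.add, hN.smul, hN.smul, hN.smul]
  simp only [coefs, Prod.fst_add, Prod.smul_fst, smul_eq_mul]
  ring

def val (n : ℤ) (k : ℤ × ℤ × ℤ) (p q : ℤ) : ℤ :=
  k.1 * (q * q) + k.2.1 * (p * q) + k.2.2 * n * (p * p)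

def leAt (n : ℤ) (k : ℤ × ℤ × ℤ) (p q : ℤ) : Bool :=
  decide (val n k p q ≤ q * q) && decide (-(q * q) ≤ val n k p q)

def ltAt (n : ℤ) (k : ℤ × ℤ × ℤ) (p q : ℤ) : Bool :=
  decide (val n k p q < q * q) && decide (-(q * q) < val n k p q)

def okWord (n : ℤ) (w : List Mv) : Bool :=
  w.all (Mv.ok n) && decide ((coefs n w).2.2 ≠ 0) &&
    decide ((coefs n w).2.1 * (coefs n w).2.1 = 4 * ((coefs n w).1 * ((coefs n w).2.2 * n)))

def badAt (n p q : ℤ) : Bool :=
  decide (Int.gcd p q = 1) && decide (q % n ≠ 0) && decide (Int.gcd q n ≠ 1)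

structure Entry where
  word : List Mv
  p : ℤ
  q : ℤ

def pointOk (n : ℤ) (all : List Entry) (p q : ℤ) : Bool :=
  badAt n p q || all.any (fun e => ltAt n (coefs n e.word) p q)

def chain (n : ℤ) (all : List Entry) : ℤ → ℤ → List Entry → Bool
  | p₀, q₀, [] => decide (2 * p₀ = q₀)
  | p₀, q₀, e :: es => decide (0 < e.q) && decide (p₀ * e.q < e.p * q₀) &&
      leAt n (coefs n e.word) p₀ q₀ && leAt n (coefs n e.word) e.p e.q &&
      pointOk n all e.p e.q && chain n all e.p e.q es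

def check (n : ℤ) (es : List Entry) : Bool :=
  decide (0 < n) && es.all (fun e => okWord n e.word) && pointOk n es 0 1 && chain n es 0 1 es

/-- a convex function -/
theorem convex_aux {A B C p₀ q₀ p q c r : ℤ} (hA : 0 < A) (hq₀ : 0 < q₀) (hq : 0 < q) (hr : 0 < r)
    (h0 : A * (p₀ * p₀) + B * (p₀ * q₀) + C * (q₀ * q₀) ≤ 0)
    (h1 : A * (p * p) + B * (p * q) + C * (q * q) ≤ 0) (ha : p₀ * r < c * q₀) (hb : c * q < p * r) :
    A * (c * c) + B * (c * r) + C * (r * r) < 0 := by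
  have ha' : 0 < c * q₀ - p₀ * r := by linarith
  have hb' : 0 < p * r - c * q := by linarith
  have hD : 0 < p * q₀ - p₀ * q := by
    by_contra hcon
    push Not at hcon
    have e1 : (p * q₀ - p₀ * q) * r ≤ 0 := mul_nonpos_of_nonpos_of_nonneg hcon hr.le
    have e2 := mul_pos ha' hq
    have e3 := mul_pos hb' hq₀
    linarith
  have key : q₀ * q * (p * q₀ - p₀ * q) * (A * (c * c) + B * (c * r) + C * (r * r)) =
      r * ((p * r - c * q) * q * (A * (p₀ * p₀) + B * (p₀ * q₀) + C * (q₀ * q₀)) +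
        (c * q₀ - p₀ * r) * q₀ * (A * (p * p) + B * (p * q) + C * (q * q))) -
        (c * q₀ - p₀ * r) * (p * r - c * q) * A * (p * q₀ - p₀ * q) := by
    ring
  have e1 : (p * r - c * q) * q * (A * (p₀ * p₀) + B * (p₀ * q₀) + C * (q₀ * q₀)) ≤ 0 :=
    mul_nonpos_of_nonneg_of_nonpos (mul_pos hb' hq).le h0
  have e2 : (c * q₀ - p₀ * r) * q₀ * (A * (p * p) + B * (p * q) + C * (q * q)) ≤ 0 :=
    mul_nonpos_of_nonneg_of_nonpos (mul_pos ha' hq₀).le h1
  have e3 : 0 < (c * q₀ - p₀ * r) * (p * r - c * q) * A * (p * q₀ - p₀ * q) :=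
    mul_pos (mul_pos (mul_pos ha' hb') hA) hD
  have e4 : r * ((p * r - c * q) * q * (A * (p₀ * p₀) + B * (p₀ * q₀) + C * (q₀ * q₀)) +
        (c * q₀ - p₀ * r) * q₀ * (A * (p * p) + B * (p * q) + C * (q * q))) ≤ 0 :=
    mul_nonpos_of_nonneg_of_nonpos hr.le (by linarith)
  have e5 : q₀ * q * (p * q₀ - p₀ * q) * (A * (c * c) + B * (c * r) + C * (r * r)) < 0 := by
    rw [key]; linarith
  have e6 : 0 < q₀ * q * (p * q₀ - p₀ * q) := mul_pos (mul_pos hq₀ hq) hD
  by_contra hcon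
  push Not at hcon
  have := mul_nonneg e6.le hcon
  linarith

/-- a reduction for vectors in a cone -/
theorem lt_of_val {n : ℤ} {w : List Mv} (hw : w.all (Mv.ok n) = true) {v : Vec} (hr : 0 < v.1)
    (hv : n * (v.2.1 * v.2.1) = v.1 * v.2.2)
    (h1 : val n (coefs n w) v.2.1 v.1 < v.1 * v.1) (h2 : -(v.1 * v.1) < val n (coefs n w) v.2.1 v.1) :
    (apw n w v).1.natAbs < v.1.natAbs := by
  have h3 : v.1 * (apw n w v).1 = val n (coefs n w) v.2.1 v.1 := by
    rw [apw_fst hw, val]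
    linear_combination (-(coefs n w).2.2) * hv
  rw [← h3] at h1 h2
  have h4 : (apw n w v).1 < v.1 := lt_of_mul_lt_mul_left h1 hr.le
  have h5 : -v.1 < (apw n w v).1 := by
    refine lt_of_mul_lt_mul_left (a := v.1) ?_ hr.le
    linarith
  omega

theorem interior {n : ℤ} (hn : 0 < n) {w : List Mv} (hw : okWord n w = true) {v : Vec} (hr : 0 < v.1)
    (hv : n * (v.2.1 * v.2.1) = v.1 * v.2.2) {p₀ q₀ p q : ℤ} (hq₀ : 0 < q₀) (hq : 0 < q)
    (h0 : leAt n (coefs n w) p₀ q₀ = true) (h1 : leAt n (coefs n w) p q = true)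
    (ha : p₀ * v.1 < v.2.1 * q₀) (hb : v.2.1 * q < p * v.1) :
    ∃ f, Rev n f ∧ (f v).1.natAbs < v.1.natAbs := by
  simp only [okWord, Bool.and_eq_true, decide_eq_true_eq] at hw
  obtain ⟨⟨hw1, hw2⟩, hw3⟩ := hw
  simp only [leAt, Bool.and_eq_true, decide_eq_true_eq] at h0 h1
  refine ⟨_, apw_rev hw1, ?_⟩
  have hlt := lt_of_val hw1 hr hv
  generalize coefs n w = k at *
  obtain ⟨α, β, γ⟩ := k
  simp only [val] at *
  have hsq : ∀ x y : ℤ, 4 * (γ * n) * (α * (y * y) + β * (x * y) + γ * n * (x * x)) =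
      (β * y + 2 * (γ * n) * x) * (β * y + 2 * (γ * n) * x) := by
    intro x y
    linear_combination (-(y * y)) * hw3
  rcases lt_or_gt_of_ne hw2 with hγ | hγ
  · -- negative
    have hA : 0 < -(γ * n) := by nlinarith
    have := convex_aux (A := -(γ * n)) (B := -β) (C := -α - 1) hA hq₀ hq hr (p₀ := p₀) (p := p)
      (by nlinarith [h0.2]) (by nlinarith [h1.2]) ha hb
    have h5 : α * (v.1 * v.1) + β * (v.2.1 * v.1) + γ * n * (v.2.1 * v.2.1) ≤ 0 := by
      have h6 := hsq v.2.1 v.1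
      have h7 := mul_self_nonneg (β * v.1 + 2 * (γ * n) * v.2.1)
      rw [← h6] at h7
      by_contra hcon
      push Not at hcon
      have := mul_pos hA hcon
      linarith
    refine hlt ?_ ?_
    · have := mul_pos hr hr; linarith
    · nlinarith [this]
  · have hA : 0 < γ * n := mul_pos hγ hn
    have := convex_aux (A := γ * n) (B := β) (C := α - 1) hA hq₀ hq hr (p₀ := p₀) (p := p)
      (by nlinarith [h0.1]) (by nlinarith [h1.1]) ha hb
    have h5 : 0 ≤ α * (v.1 * v.1) + β * (v.2.1 * v.1) + γ * n * (v.2.1 * v.2.1) := by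
      have h6 := hsq v.2.1 v.1
      have h7 := mul_self_nonneg (β * v.1 + 2 * (γ * n) * v.2.1)
      rw [← h6] at h7
      by_contra hcon
      push Not at hcon
      have := mul_pos hA (neg_pos.mpr hcon)
      linarith
    refine hlt ?_ ?_
    · nlinarith [this]
    · have := mul_pos hr hr; linarith

theorem point {n : ℤ} {all : List Entry} (hall : ∀ e ∈ all, okWord n e.word = true) {p q : ℤ}
    (hq : 0 < q) (h : pointOk n all p q = true) {v : Vec} (hr : 0 < v.1)
    (hv : n * (v.2.1 * v.2.1) = v.1 * v.2.2) (ho : Orb n v) (hpq : v.2.1 * q = p * v.1) :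
    ∃ f, Rev n f ∧ (f v).1.natAbs < v.1.natAbs := by
  simp only [pointOk, Bool.or_eq_true, List.any_eq_true] at h
  rcases h with h | ⟨e, he, h⟩
  · exfalso
    simp only [badAt, Bool.and_eq_true, decide_eq_true_eq] at h
    obtain ⟨⟨h1, h2⟩, h3⟩ := h
    have hcop : IsCoprime p q := Int.isCoprime_iff_gcd_eq_one.mpr h1
    -- `q` divides `v.1`
    obtain ⟨t, ht⟩ : q ∣ v.1 := by
      have : q ∣ p * v.1 := ⟨v.2.1, by rw [← hpq]; ring⟩
      exact hcop.symm.dvd_of_dvd_mul_left this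
    have hc : v.2.1 = p * t := by
      refine mul_right_cancel₀ hq.ne' ?_
      rw [hpq, ht]; ring
    have ht0 : t ≠ 0 := by
      rintro rfl
      rw [mul_zero] at ht
      omega
    have hs : q * v.2.2 = n * (p * p) * t := by
      refine mul_left_cancel₀ ht0 ?_
      rw [hc, ht] at hv
      linear_combination -hv
    rcases ho with ⟨h4, h5⟩ | ⟨h4, h5⟩
    · apply h2
      have h6 : n ∣ q * v.2.2 := ⟨p * p * t, by rw [hs]; ring⟩
      exact Int.emod_eq_zero_of_dvd (h5.symm.dvd_of_dvd_mul_right h6)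
    · apply h3
      rw [← Int.isCoprime_iff_gcd_eq_one]
      rw [ht] at h5
      exact h5.of_mul_left_left
  · have hw := hall e he
    simp only [okWord, Bool.and_eq_true, decide_eq_true_eq] at hw
    simp only [ltAt, Bool.and_eq_true, decide_eq_true_eq] at h
    refine ⟨_, apw_rev hw.1.1, lt_of_val hw.1.1 hr hv ?_ ?_⟩
    · have h1 : q * q * val n (coefs n e.word) v.2.1 v.1 =
          v.1 * v.1 * val n (coefs n e.word) p q := by
        simp only [val]
        linear_combination ((coefs n e.word).2.1 * v.1 * q +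
          (coefs n e.word).2.2 * n * (v.2.1 * q + p * v.1)) * hpq
      have h2 := mul_lt_mul_of_pos_left h.1 (mul_pos hr hr)
      rw [← h1] at h2
      have h3 : q * q * val n (coefs n e.word) v.2.1 v.1 < q * q * (v.1 * v.1) := by linarith
      exact lt_of_mul_lt_mul_left h3 (mul_pos hq hq).le
    · have h1 : q * q * val n (coefs n e.word) v.2.1 v.1 =
          v.1 * v.1 * val n (coefs n e.word) p q := by
        simp only [val]
        linear_combination ((coefs n e.word).2.1 * v.1 * q +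
          (coefs n e.word).2.2 * n * (v.2.1 * q + p * v.1)) * hpq
      have h2 := mul_lt_mul_of_pos_left h.2 (mul_pos hr hr)
      rw [← h1] at h2
      have h3 : q * q * (-(v.1 * v.1)) < q * q * val n (coefs n e.word) v.2.1 v.1 := by linarith
      exact lt_of_mul_lt_mul_left h3 (mul_pos hq hq).le

theorem chain_sound {n : ℤ} (hn : 0 < n) {all : List Entry}
    (hall : ∀ e ∈ all, okWord n e.word = true) : ∀ (es : List Entry) (p₀ q₀ : ℤ), 0 < q₀ →
      (∀ e ∈ es, okWord n e.word = true) → chain n all p₀ q₀ es = true → ∀ v : Vec, 0 < v.1 →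
      n * (v.2.1 * v.2.1) = v.1 * v.2.2 → Orb n v → p₀ * v.1 < v.2.1 * q₀ → 2 * v.2.1 ≤ v.1 →
        ∃ f, Rev n f ∧ (f v).1.natAbs < v.1.natAbs
  | [], p₀, q₀, hq₀, _, h, v, hr, hv, ho, h1, h2 => by
    exfalso
    simp only [chain, decide_eq_true_eq] at h
    have hp : 0 < p₀ := by omega
    rw [← h] at h1
    nlinarith
  | e :: es, p₀, q₀, hq₀, hes, h, v, hr, hv, ho, h1, h2 => by
    simp only [chain, Bool.and_eq_true, decide_eq_true_eq] at h
    obtain ⟨⟨⟨⟨⟨a1, a2⟩, a3⟩, a4⟩, a5⟩, a6⟩ := h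
    rcases lt_trichotomy (v.2.1 * e.q) (e.p * v.1) with h3 | h3 | h3
    · exact interior hn (hes e List.mem_cons_self) hr hv hq₀ a1 a3 a4 h1 h3
    · exact point hall a1 a5 hr hv ho h3
    · exact chain_sound hn hall es e.p e.q a1 (fun e' he' => hes e' (List.mem_cons_of_mem _ he')) a6
        v hr hv ho h3 h2

theorem exists_reduced {n : ℤ} (v : Vec) (hv : v.1 ≠ 0) : ∃ g, Rev n g ∧ 0 < (g v).1 ∧
    (g v).1.natAbs = v.1.natAbs ∧ 0 ≤ (g v).2.1 ∧ 2 * (g v).2.1 ≤ (g v).1 := by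
  -- sign
  obtain ⟨g₁, hg₁, h1, h2⟩ : ∃ g, Rev n g ∧ 0 < (g v).1 ∧ (g v).1.natAbs = v.1.natAbs := by
    rcases lt_or_gt_of_ne hv with h | h
    · exact ⟨_, rev_neg n, by simpa using h, by simp⟩
    · exact ⟨_, Rev.id n, h, rfl⟩
  -- translation
  set u := g₁ v with hu
  obtain ⟨m, hm1, hm2⟩ : ∃ m : ℤ, -u.1 ≤ 2 * (u.2.1 + m * u.1) ∧ 2 * (u.2.1 + m * u.1) ≤ u.1 := by
    refine ⟨-((2 * u.2.1 + u.1) / (2 * u.1)), ?_, ?_⟩
    · have := Int.mul_ediv_self_le (x := 2 * u.2.1 + u.1) (k := 2 * u.1) (by omega)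
      nlinarith
    · have := Int.lt_mul_ediv_self_add (x := 2 * u.2.1 + u.1) (k := 2 * u.1) (by omega)
      nlinarith
  have hg₂ : Rev n ((Mv.line m).ap n) := Mv.rev rfl
  by_cases h3 : 0 ≤ u.2.1 + m * u.1
  · refine ⟨_, hg₂.comp hg₁, ?_, ?_, ?_, ?_⟩
    · exact h1
    · exact h2
    · exact h3
    · exact hm2
  · refine ⟨_, (rev_dual n).comp (hg₂.comp hg₁), ?_, ?_, ?_, ?_⟩
    · exact h1
    · exact h2
    · change 0 ≤ -(u.2.1 + m * u.1)
      omega
    · change 2 * -(u.2.1 + m * u.1) ≤ u.1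
      omega

theorem covered_of_check {n : ℤ} {es : List Entry} (h : check n es = true) : 0 < n ∧ Covered n := by
  simp only [check, Bool.and_eq_true, decide_eq_true_eq, List.all_eq_true] at h
  obtain ⟨⟨⟨hn, h1⟩, h2⟩, h3⟩ := h
  refine ⟨hn, fun γ hγ hr => ?_⟩
  obtain ⟨g, hg, a1, a2, a3, a4⟩ := exists_reduced (n := n) (γ (0, 0, 1)) hr
  have hN := hg.1.nice.comp hγ
  have ho := hN.orb hn.ne'
  set v := g (γ (0, 0, 1)) with hv
  have hiso : n * (v.2.1 * v.2.1) = v.1 * v.2.2 := by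
    have h5 : pair n v v = 0 := by
      have := hN.iso (0, 0, 1) (0, 0, 1)
      rw [hv, this]; simp [pair]
    simp only [pair] at h5
    refine mul_left_cancel₀ two_ne_zero ?_
    linear_combination h5
  obtain ⟨f, hf, hlt⟩ : ∃ f, Rev n f ∧ (f v).1.natAbs < v.1.natAbs := by
    rcases eq_or_lt_of_le a3 with h6 | h6
    · exact point h1 one_pos h2 a1 hiso ho (by rw [← h6]; ring)
    · exact chain_sound hn h1 es 0 1 one_pos h1 h3 v a1 hiso ho (by simpa using h6) a4
  exact ⟨_, hf.comp hg, by rw [← a2]; exact hlt⟩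

end Pool.Agent.Lib.MP_240120_one
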