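import Mathlib

set_option autoImplicit false

/-!
# K3 surfaces of Picard number one: the data

The Néron-Severi lattice of such a K3 surface `X` is `ℤ h`, with an ample class `h`, `h² = 2n`.
-/

namespace Pool.Agent.Lib.MP_240120_one

/-- The algebraic Mukai vectors `(r, c h, s)`, as triples `(r, c, s)`. -/
abbrev Vec : Type := ℤ × ℤ × ℤ

/-- The Mukai pairing `2 n c c' - r s' - s r'` of `(r, c h, s)` and `(r', c' h, s')`. -/
def pair (n : ℤ) (v w : Vec) : ℤ :=
  2 * n * (v.2.1 * w.2.1) - v.1 * w.2.2 - v.2.2 * w.1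

/-- The reflection in a vector `δ` of square `2 e`, `e = ±1`. -/
def refl (n e : ℤ) (δ v : Vec) : Vec := v - (e * pair n v δ) • δ

/-- The transvection `v ↦ v + (v, d) u - (v, u) d - (u, u) / 2 (v, d) d` for an isotropic vector `d` and a
vector `u` orthogonal to `d`.  For `d = (0, 0, 1)`, `u = (0, -m, 0)` this is the multiplication
by `exp (m h)`. -/
def transvection (n : ℤ) (d u v : Vec) : Vec :=
  v + pair n v d • u - (pair n v u + (n * (u.2.1 * u.2.1) - u.1 * u.2.2) * pair n v d) • d

/-- The compositions of `-1`, the duality `(r, c, s) ↦ (r, -c, s)`, the reflections in vectors of square `2`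
and `-2`, and transvections. -/
inductive Gen (n : ℤ) : (Vec → Vec) → Prop
  | id : Gen n (fun v => v)
  | neg {f : Vec → Vec} : Gen n f → Gen n (fun v => -f v)
  | dual {f : Vec → Vec} : Gen n f → Gen n (fun v => ((f v).1, -(f v).2.1, (f v).2.2))
  | refl {f : Vec → Vec} (e : ℤ) (δ : Vec) : e = 1 ∨ e = -1 → pair n δ δ = 2 * e → Gen n f →
      Gen n (fun v => refl n e δ (f v))
  | transvection {f : Vec → Vec} (d u : Vec) : pair n d d = 0 → pair n d u = 0 → Gen n f →
      Gen n (fun v => transvection n d u (f v))

/-- A complex K3 surface `X` with `NS(X) = ℤ h`, `h` ample, `h² = 2n`; its Mukai lattice `H`, its group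
`CH` of zero-cycles of degree zero modulo rational equivalence, and the group `D` of its derived
autoequivalences and anti-autoequivalences, with the known theorems on them that are used. -/
structure K3 (n : ℤ) (H CH D : Type*) [AddCommGroup H] [AddCommGroup CH] [Group D] where
  /-- The Mukai pairing on the Mukai lattice `H⁰ ⊕ H² ⊕ H⁴`. -/
  B : H →+ H →+ ℤ
  symm : ∀ x y, B x y = B y x
  /-- The algebraic classes `(r, c h, s)` in the Mukai lattice. -/
  alg : Vec →+ H
  pair_alg : ∀ v w, B (alg v) (alg w) = pair n v w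
  /-- The Mukai lattice is unimodular and the algebraic classes are a primitive sublattice: every
  homomorphism from the algebraic classes to `ℤ` is the pairing with some class. -/
  unimodular : ∀ l : Vec →+ ℤ, ∃ y, ∀ v, B y (alg v) = l v
  /-- The classes orthogonal to the transcendental lattice `T(X)` are algebraic. -/
  primitive : ∀ y, (∀ t, (∀ v, B t (alg v) = 0) → B y t = 0) → ∃ v, alg v = y
  /-- `-1` on anti-autoequivalences, `1` on autoequivalences. -/
  sgn : D →* ℤˣ
  /-- The action on the Mukai lattice. -/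
  act : D →* AddMonoid.End H
  isometry : ∀ Φ x y, B (act Φ x) (act Φ y) = B x y
  /-- The action on the zero-cycles of degree zero. -/
  ch : D →* AddMonoid.End CH
  /-- The shift. -/
  shift : ∃ Φ, sgn Φ = 1 ∧ (∀ x, act Φ x = -x) ∧ ∀ z, ch Φ z = -z
  /-- The duality functor. -/
  dual : ∃ Φ, sgn Φ = -1 ∧ (∀ t, (∀ v, B t (alg v) = 0) → act Φ t = -t) ∧
    (∀ v : Vec, act Φ (alg v) = alg (v.1, -v.2.1, v.2.2)) ∧ ∀ z, ch Φ z = z
  /-- The spherical twists (every vector of square `-2` is the Mukai vector of a spherical object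
  (Kuleshov, Mukai), and spherical twists act as the identity on zero-cycles of degree zero
  (Huybrechts)). -/
  spherical : ∀ δ : Vec, pair n δ δ = -2 → ∃ Φ, sgn Φ = 1 ∧
    (∀ t, (∀ v, B t (alg v) = 0) → act Φ t = t) ∧
    (∀ v : Vec, act Φ (alg v) = alg (refl n (-1) δ v)) ∧ ∀ z, ch Φ z = z
  /-- The anti-autoequivalences which act as the reflection in a vector of square `2`
  (Huybrechts-Macri-Stellari, Li-Yu-Zhang). -/
  square_two : ∀ δ : Vec, pair n δ δ = 2 → ∃ Φ, sgn Φ = -1 ∧
    (∀ t, (∀ v, B t (alg v) = 0) → act Φ t = t) ∧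
    (∀ v : Vec, act Φ (alg v) = alg (refl n 1 δ v)) ∧ ∀ z, ch Φ z = -z
  /-- The twists by line bundles on the (twisted) Fourier-Mukai partners: if `d` is isotropic and
  primitive then `D(X)` is equivalent to `D(Y, α)` for the moduli space `Y` of stable sheaves with
  Mukai vector `d`, the points of `Y` have the class `d`, and the twist by the line bundle
  with first Chern class `-u` in `d^⊥ / d` acts as a transvection on the Mukai lattice and as the
  identity on the zero-cycles of degree zero of `Y`, and of `X`. -/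
  partner : ∀ d u : Vec, pair n d d = 0 → pair n d u = 0 → ∃ Φ, sgn Φ = 1 ∧
    (∀ t, (∀ v, B t (alg v) = 0) → act Φ t = t) ∧
    (∀ v : Vec, act Φ (alg v) = alg (transvection n d u v)) ∧ ∀ z, ch Φ z = z
  /-- If `Φ` acts as the identity on the algebraic classes and as `ε` on `T(X)`, `ε = ±1`, then
  it is an autoequivalence (Huybrechts-Macri-Stellari), and acts as `ε` on the zero-cycles of
  degree zero (for `ε = 1` by Huybrechts; `ε = -1` is possible only if `X` is a double plane, `n = 1`, and then
  one composes `Φ` with the covering involution). -/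
  faithful : ∀ Φ (ε : ℤˣ), (∀ v, act Φ (alg v) = alg v) →
    (∀ t, (∀ v, B t (alg v) = 0) → act Φ t = (ε : ℤ) • t) →
      sgn Φ = 1 ∧ ∀ z, ch Φ z = (ε : ℤ) • z

end Pool.Agent.Lib.MP_240120_one
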