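import Pool.Agent.Lib.MP_240120_one.Cover

set_option autoImplicit false

/-!
# Autoequivalences of K3 surfaces of Picard number one
-/

namespace Pool.Agent.Lib.MP_240120_one

theorem end_mul_apply {M : Type*} [AddCommGroup M] (f g : AddMonoid.End M) (x : M) :
    (f * g) x = f (g x) := rfl

namespace K3

variable {n : ℤ} {H CH D : Type*} [AddCommGroup H] [AddCommGroup CH] [Group D]

/-- the transcendental classes -/
def Tr (X : K3 n H CH D) (t : H) : Prop := ∀ v, X.B t (X.alg v) = 0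

theorem Tr.smul {X : K3 n H CH D} {t : H} (h : X.Tr t) (z : ℤ) : X.Tr (z • t) := by
  intro v
  rw [map_zsmul, AddMonoidHom.smul_apply, h v, smul_zero]

theorem alg_inj (X : K3 n H CH D) (hn : n ≠ 0) {v w : Vec} (h : X.alg v = X.alg w) : v = w := by
  have h1 : ∀ x, pair n v x = pair n w x := fun x => by rw [← X.pair_alg, ← X.pair_alg, h]
  have a1 := h1 (0, 0, 1)
  have a2 := h1 (1, 0, 0)
  have a3 := h1 (0, 1, 0)
  simp only [pair] at a1 a2 a3
  ext
  · linarith
  · refine mul_left_cancel₀ (mul_ne_zero two_ne_zero hn) ?_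
    linarith
  · linarith

/-- `Ψ` acts on the algebraic classes as `f` and is as predicted on zero-cycles -/
def Realised (X : K3 n H CH D) (f : Vec → Vec) : Prop := ∃ (Ψ : D) (η : ℤˣ),
  (∀ t, X.Tr t → X.act Ψ t = (η : ℤ) • t) ∧ (∀ v, X.act Ψ (X.alg v) = X.alg (f v)) ∧
    ∀ z, X.ch Ψ z = ((X.sgn Ψ * η : ℤˣ) : ℤ) • z

theorem realised_comp (X : K3 n H CH D) {f g : Vec → Vec} (hf : X.Realised f) (hg : X.Realised g) :
    X.Realised (fun v => f (g v)) := by
  obtain ⟨Ψ, η, h1, h2, h3⟩ := hf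
  obtain ⟨Ψ', η', h1', h2', h3'⟩ := hg
  refine ⟨Ψ * Ψ', η * η', fun t ht => ?_, fun v => ?_, fun z => ?_⟩
  · rw [map_mul, end_mul_apply, h1' t ht, map_zsmul, h1 t ht, smul_smul]
    push_cast
    rw [mul_comm]
  · rw [map_mul, end_mul_apply, h2', h2]
  · rw [map_mul, map_mul, end_mul_apply, h3', map_zsmul, h3, smul_smul]
    push_cast
    congr 1
    ring

theorem realised (X : K3 n H CH D) {f : Vec → Vec} (hf : Gen n f) : X.Realised f := by
  induction hf with
  | id => exact ⟨1, 1, fun t _ => by simp, fun v => by simp, fun z => by simp⟩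
  | neg _ ih =>
    refine X.realised_comp (f := fun v => -v) ?_ ih
    obtain ⟨Φ, h1, h2, h3⟩ := X.shift
    exact ⟨Φ, -1, fun t _ => by rw [h2]; simp, fun v => by rw [h2, map_neg],
      fun z => by rw [h3, h1]; simp⟩
  | dual _ ih =>
    refine X.realised_comp (f := fun v => (v.1, -v.2.1, v.2.2)) ?_ ih
    obtain ⟨Φ, h1, h2, h3, h4⟩ := X.dual
    exact ⟨Φ, -1, fun t ht => by rw [h2 t ht]; simp, h3, fun z => by rw [h4, h1]; simp⟩
  | refl e δ he hδ _ ih =>
    refine X.realised_comp (f := refl n e δ) ?_ ih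
    rcases he with rfl | rfl
    · obtain ⟨Φ, h1, h2, h3, h4⟩ := X.square_two δ (by rw [hδ]; norm_num)
      exact ⟨Φ, 1, fun t ht => by rw [h2 t ht]; simp, h3, fun z => by rw [h4, h1]; simp⟩
    · obtain ⟨Φ, h1, h2, h3, h4⟩ := X.spherical δ (by rw [hδ]; norm_num)
      exact ⟨Φ, 1, fun t ht => by rw [h2 t ht]; simp, h3, fun z => by rw [h4, h1]; simp⟩
  | transvection d u hd hu _ ih =>
    refine X.realised_comp (f := transvection n d u) ?_ ih
    obtain ⟨Φ, h1, h2, h3, h4⟩ := X.partner d u hd hu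
    exact ⟨Φ, 1, fun t ht => by rw [h2 t ht]; simp, h3, fun z => by rw [h4, h1]; simp⟩

theorem exists_nice (X : K3 n H CH D) (hn : n ≠ 0) (Φ : D) (ε : ℤˣ)
    (hΦ : ∀ t, X.Tr t → X.act Φ t = (ε : ℤ) • t) :
    ∃ γ, Nice n γ ∧ ∀ v, X.act Φ (X.alg v) = X.alg (γ v) := by
  have hεε : (ε : ℤ) * (ε : ℤ) = 1 := by
    rw [← Units.val_mul, Int.units_mul_self, Units.val_one]
  have h1 : ∀ v, ∃ w, X.alg w = X.act Φ (X.alg v) := by
    intro v
    refine X.primitive _ fun t ht => ?_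
    have h2 : X.act Φ ((ε : ℤ) • t) = t := by
      rw [hΦ _ (Tr.smul ht _), smul_smul, hεε, one_smul]
    rw [← h2, X.isometry, X.symm]
    exact Tr.smul ht _ v
  choose γ hγ using h1
  refine ⟨γ, ⟨fun v w => ?_, fun v w => ?_, ?_⟩, fun v => (hγ v).symm⟩
  · exact X.alg_inj hn (by rw [hγ, map_add, map_add, map_add, hγ, hγ])
  · rw [← X.pair_alg, hγ, hγ, X.isometry, X.pair_alg]
  · obtain ⟨y, hy⟩ := X.unimodular ((AddMonoidHom.fst ℤ ℤ).comp (AddMonoidHom.snd ℤ (ℤ × ℤ)))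
    -- `2 n y - alg (0, 1, 0)` is transcendental
    have ht : X.Tr ((2 * n) • y - X.alg (0, 1, 0)) := by
      intro v
      rw [map_sub, AddMonoidHom.sub_apply, map_zsmul, AddMonoidHom.smul_apply, hy, X.pair_alg]
      simp only [pair, AddMonoidHom.coe_comp, AddMonoidHom.coe_fst, AddMonoidHom.coe_snd,
        Function.comp_apply, smul_eq_mul]
      ring
    have h3 := hΦ _ ht
    have h4 : X.alg (γ (0, 1, 0) - (ε : ℤ) • (0, 1, 0)) = (2 * n) • (X.act Φ y - (ε : ℤ) • y) := by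
      rw [map_sub, map_zsmul, ← hγ] at h3
      rw [map_sub, map_zsmul]
      rw [smul_sub] at h3
      have h5 : (2 * n) • (X.act Φ y - (ε : ℤ) • y) =
          ((2 * n) • X.act Φ y - X.alg (γ (0, 1, 0))) + X.alg (γ (0, 1, 0)) -
            (ε : ℤ) • (2 * n) • y := by
        module
      rw [h5, h3]
      module
    obtain ⟨l, hl⟩ := X.primitive (X.act Φ y - (ε : ℤ) • y) (by
      intro t ht'
      have h6 : X.B ((2 * n) • (X.act Φ y - (ε : ℤ) • y)) t = 0 := by
        rw [← h4, X.symm]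
        exact ht' _
      rw [map_zsmul, AddMonoidHom.smul_apply, smul_eq_mul] at h6
      rcases mul_eq_zero.mp h6 with h | h
      · exact absurd h (mul_ne_zero two_ne_zero hn)
      · exact h)
    refine ⟨ε, l, ?_, ?_⟩
    · rcases Int.units_eq_one_or ε with rfl | rfl <;> simp
    · have h7 : γ (0, 1, 0) - (ε : ℤ) • (0, 1, 0) = (2 * n) • l := by
        apply X.alg_inj hn
        rw [h4, map_zsmul, hl]
      rw [← h7]
      module

theorem bloch (X : K3 n H CH D) (hn : n ≠ 0) (hcov : Covered n) (Φ : D) (ε : ℤˣ)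
    (hΦ : ∀ t, X.Tr t → X.act Φ t = (ε : ℤ) • t) (z : CH) :
    X.ch Φ z = ((X.sgn Φ * ε : ℤˣ) : ℤ) • z := by
  obtain ⟨γ, hγ, hact⟩ := X.exists_nice hn Φ ε hΦ
  obtain ⟨Ψ, η, h1, h2, h3⟩ := X.realised (gen_of_nice hn hcov hγ)
  have hηη : (η : ℤ) * (η : ℤ) = 1 := by
    rw [← Units.val_mul, Int.units_mul_self, Units.val_one]
  have hinv : ∀ x, X.act Ψ⁻¹ (X.act Ψ x) = x := by
    intro x
    rw [← end_mul_apply, ← map_mul, inv_mul_cancel, map_one]; rfl
  have hinvt : ∀ t, X.Tr t → X.act Ψ⁻¹ t = (η : ℤ) • t := by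
    intro t ht
    have := hinv ((η : ℤ) • t)
    rw [h1 _ (Tr.smul ht _), smul_smul, hηη, one_smul] at this
    exact this
  obtain ⟨h4, h5⟩ := X.faithful (Ψ⁻¹ * Φ) (η * ε) (fun v => by
      rw [map_mul, end_mul_apply, hact, ← h2, hinv]) (fun t ht => by
      rw [map_mul, end_mul_apply, hΦ t ht, hinvt _ (Tr.smul ht _), smul_smul]
      push_cast; rfl)
  have h6 : X.sgn Φ = X.sgn Ψ := by
    rw [map_mul, map_inv] at h4
    exact (inv_mul_eq_one.mp h4).symm
  have h7 : X.ch Φ z = X.ch Ψ (X.ch (Ψ⁻¹ * Φ) z) := by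
    rw [← end_mul_apply, ← map_mul, mul_inv_cancel_left]
  rw [h7, h5, map_zsmul, h3, smul_smul, h6]
  congr 1
  push_cast
  linear_combination ((ε : ℤ) * (X.sgn Ψ : ℤ)) * hηη

end K3

end Pool.Agent.Lib.MP_240120_one
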