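import Pool.Agent.Lib.MP_240120_one.Basic

set_option autoImplicit false

/-!
# The orbit of the class of a point
-/

namespace Pool.Agent.Lib.MP_240120_one

/-- a condition on the isotropic vectors in the orbit of `(0, 0, 1)` -/
def Orb (n : ℤ) (v : Vec) : Prop := (n ∣ v.1 ∧ IsCoprime v.2.2 n) ∨ (n ∣ v.2.2 ∧ IsCoprime v.1 n)

theorem orb_aux {n r c s r' c' s' l₁ l₂ l₃ ε : ℤ} (hε : ε = 1 ∨ ε = -1)
    (h1 : n * (c * c) = r * s) (h2 : n * (c' * c') = r' * s')
    (h3 : 2 * n * (c * c') - r * s' - s * r' = 1)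
    (h4 : c * (ε + 2 * n * l₂) = r * l₃ + s * l₁)
    (h5 : c' * (ε + 2 * n * l₂) = r' * l₃ + s' * l₁)
    (h6 : (ε + 2 * n * l₂) * (ε + 2 * n * l₂) = 1 + 4 * n * (l₁ * l₃)) :
    (n ∣ r ∧ IsCoprime s n) ∨ (n ∣ s ∧ IsCoprime r n) := by
  set w := ε + 2 * n * l₂ with hw
  set δ := s * r' - r * s' with hδ
  have hA : (c * r' - c' * r) * w = δ * l₁ := by rw [hδ]; linear_combination r' * h4 - r * h5
  have hB : (c * s' - c' * s) * w = -(δ * l₃) := by rw [hδ]; linear_combination s' * h4 - s * h5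
  have hC : (c * r' - c' * r) * (c * s' - c' * s) = c * c' := by
    linear_combination (-(c * c)) * h2 - (c' * c') * h1 + (c * c') * h3
  have hD : δ * δ = 1 - 4 * n * (c * c') := by
    rw [hδ]
    linear_combination (-(s * r' + r * s' + 2 * n * (c * c') - 1)) * h3 + (4 * (r' * s')) * h1 +
      (4 * (n * (c * c))) * h2
  have hE : c * c' = -(l₁ * l₃) := by
    have h7 : c * c' * (w * w) = -(δ * δ * (l₁ * l₃)) := by
      have : ((c * r' - c' * r) * w) * ((c * s' - c' * s) * w) = (δ * l₁) * (-(δ * l₃)) := by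
        rw [hA, hB]
      linear_combination this - (w * w) * hC
    rw [h6, hD] at h7
    linear_combination h7
  have hF : (δ - w) * (δ + w) = 0 := by linear_combination hD - h6 - (4 * n) * hE
  have key : ∃ ε' m : ℤ, (ε' = 1 ∨ ε' = -1) ∧ δ = ε' + 2 * n * m := by
    rcases mul_eq_zero.mp hF with h | h
    · exact ⟨ε, l₂, hε, by rw [← hw]; linear_combination h⟩
    · refine ⟨-ε, -l₂, ?_, by linear_combination h + hw⟩
      rcases hε with rfl | rfl <;> simp
  obtain ⟨ε', m, hε', hm⟩ := key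
  rcases hε' with rfl | rfl
  · right
    have hr : IsCoprime r n := by
      refine ⟨-s', c * c' - m, ?_⟩
      have : (2 : ℤ) * (-s' * r + (c * c' - m) * n) = 2 * 1 := by
        rw [hδ] at hm; linear_combination h3 + hm
      exact mul_left_cancel₀ two_ne_zero this
    refine ⟨?_, hr⟩
    have : n ∣ r * s := ⟨c * c, h1.symm⟩
    exact hr.symm.dvd_of_dvd_mul_left this
  · left
    have hs : IsCoprime s n := by
      refine ⟨-r', c * c' + m, ?_⟩
      have : (2 : ℤ) * (-r' * s + (c * c' + m) * n) = 2 * 1 := by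
        rw [hδ] at hm; linear_combination h3 - hm
      exact mul_left_cancel₀ two_ne_zero this
    refine ⟨?_, hs⟩
    have : n ∣ s * r := ⟨c * c, by linear_combination -h1⟩
    exact hs.symm.dvd_of_dvd_mul_left this

theorem Nice.orb {n : ℤ} (hn : n ≠ 0) {γ : Vec → Vec} (h : Nice n γ) : Orb n (γ (0, 0, 1)) := by
  obtain ⟨ε, l, hε, hl⟩ := h.disc
  have h1 := h.iso (0, 0, 1) (0, 0, 1)
  have h2 := h.iso (-1, 0, 0) (-1, 0, 0)
  have h3 := h.iso (0, 0, 1) (-1, 0, 0)
  have h4 := h.iso (0, 0, 1) (0, 1, 0)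
  have h5 := h.iso (-1, 0, 0) (0, 1, 0)
  have h6 := h.iso (0, 1, 0) (0, 1, 0)
  rw [hl] at h4 h5 h6
  simp only [pair, Prod.fst_add, Prod.snd_add, Prod.smul_fst, Prod.smul_snd, smul_eq_mul] at h1 h2 h3 h4 h5 h6
  have h2n : (2 * n : ℤ) ≠ 0 := mul_ne_zero two_ne_zero hn
  refine orb_aux hε ?_ ?_ ?_ ?_ ?_ ?_ (r' := (γ (-1, 0, 0)).1) (c' := (γ (-1, 0, 0)).2.1)
    (s' := (γ (-1, 0, 0)).2.2) (c := (γ (0, 0, 1)).2.1) (l₁ := l.1) (l₂ := l.2.1) (l₃ := l.2.2)
  · refine mul_left_cancel₀ two_ne_zero ?_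
    linear_combination h1
  · refine mul_left_cancel₀ two_ne_zero ?_
    linear_combination h2
  · linear_combination h3
  · refine mul_left_cancel₀ h2n ?_
    linear_combination h4
  · refine mul_left_cancel₀ h2n ?_
    linear_combination h5
  · refine mul_left_cancel₀ h2n ?_
    linear_combination h6

/-- the Euclidean algorithm works for `n` -/
def Covered (n : ℤ) : Prop := ∀ γ : Vec → Vec, Nice n γ → (γ (0, 0, 1)).1 ≠ 0 →
  ∃ f, Rev n f ∧ (f (γ (0, 0, 1))).1.natAbs < (γ (0, 0, 1)).1.natAbs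

theorem Nice.eq_of_basis {n : ℤ} {γ : Vec → Vec} (h : Nice n γ) (h1 : γ (-1, 0, 0) = (-1, 0, 0))
    (h2 : γ (0, 1, 0) = (0, 1, 0)) (h3 : γ (0, 0, 1) = (0, 0, 1)) : γ = fun v => v := by
  funext v
  have hv : v = (-v.1) • ((-1, 0, 0) : Vec) + (v.2.1 • ((0, 1, 0) : Vec) + v.2.2 • ((0, 0, 1) : Vec)) := by
    ext <;> simp
  have h4 : γ v = v := by
    rw [hv, h.add, h.add, h.smul, h.smul, h.smul, h1, h2, h3]
  exact h4

theorem Gen.of_neg {n : ℤ} {γ : Vec → Vec} (h : Gen n (fun v => -γ v)) : Gen n γ := by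
  have := h.neg
  simpa only [neg_neg] using this

theorem Gen.of_rev {n : ℤ} {f γ : Vec → Vec} (hf : Rev n f) (h : Gen n (fun v => f (γ v))) :
    Gen n γ := by
  obtain ⟨-, g, hg, hgf⟩ := hf
  have := hg.comp h
  simpa only [hgf] using this

theorem gen_base {n : ℤ} (hn : n ≠ 0) {γ : Vec → Vec} (h : Nice n γ) (h0 : (γ (0, 0, 1)).1 = 0) :
    Gen n γ := by
  have h1 := h.iso (0, 0, 1) (0, 0, 1)
  have h3 := h.iso (0, 0, 1) (-1, 0, 0)
  simp only [pair, h0] at h1 h3
  have hc : (γ (0, 0, 1)).2.1 = 0 := by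
    have : n * ((γ (0, 0, 1)).2.1 * (γ (0, 0, 1)).2.1) = 0 := by
      refine mul_left_cancel₀ two_ne_zero ?_
      linear_combination h1
    rcases mul_eq_zero.mp this with h | h
    · exact absurd h hn
    · exact mul_self_eq_zero.mp h
  rw [hc] at h3
  have hs : (γ (0, 0, 1)).2.2 * (γ (-1, 0, 0)).1 = -1 := by linear_combination -h3
  -- the case of `1`
  have key : ∀ γ : Vec → Vec, Nice n γ → γ (0, 0, 1) = (0, 0, 1) → Gen n γ := by
    intro γ h h0
    have h3 := h.iso (0, 0, 1) (-1, 0, 0)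
    rw [h0] at h3
    simp only [pair] at h3
    have hr : (γ (-1, 0, 0)).1 = -1 := by linear_combination -h3
    set m := (γ (-1, 0, 0)).2.1 with hm
    have hd : pair n ((0, 0, 1) : Vec) (0, 0, 1) = 0 := by simp [pair]
    have hu : pair n ((0, 0, 1) : Vec) (0, -m, 0) = 0 := by simp [pair]
    have hN := (nice_transvection hd hu).comp h
    refine Gen.of_rev (rev_transvection hd hu) ?_
    set γ' := fun v => transvection n (0, 0, 1) (0, -m, 0) (γ v) with hγ'
    have h0' : γ' (0, 0, 1) = (0, 0, 1) := by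
      simp only [hγ', h0]
      unfold transvection
      simp [pair]
    have h2' := hN.iso (-1, 0, 0) (-1, 0, 0)
    have hr' : (γ' (-1, 0, 0)).1 = -1 := by
      simp only [hγ', transvection, pair, Prod.fst_add, Prod.fst_sub, Prod.smul_fst, smul_eq_mul, hr]
      ring
    have hc' : (γ' (-1, 0, 0)).2.1 = 0 := by
      simp only [hγ', transvection, pair, Prod.snd_add, Prod.fst_add, Prod.fst_sub, Prod.snd_sub,
        Prod.smul_fst, Prod.smul_snd, smul_eq_mul, hr]
      rw [← hm]; ring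
    have hs' : (γ' (-1, 0, 0)).2.2 = 0 := by
      change pair n (γ' (-1, 0, 0)) (γ' (-1, 0, 0)) = _ at h2'
      simp only [pair, hr', hc'] at h2'
      linarith
    have h1' : γ' (-1, 0, 0) = (-1, 0, 0) := by
      ext
      · exact hr'
      · exact hc'
      · exact hs'
    have h4 := hN.iso (0, 0, 1) (0, 1, 0)
    have h5 := hN.iso (-1, 0, 0) (0, 1, 0)
    have h6 := hN.iso (0, 1, 0) (0, 1, 0)
    change pair n (γ' (0, 0, 1)) (γ' (0, 1, 0)) = _ at h4
    change pair n (γ' (-1, 0, 0)) (γ' (0, 1, 0)) = _ at h5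
    change pair n (γ' (0, 1, 0)) (γ' (0, 1, 0)) = _ at h6
    rw [h0'] at h4
    rw [h1'] at h5
    simp only [pair] at h4 h5 h6
    have a1 : (γ' (0, 1, 0)).1 = 0 := by linarith
    have a3 : (γ' (0, 1, 0)).2.2 = 0 := by linarith
    rw [a1, a3] at h6
    have a2 : (γ' (0, 1, 0)).2.1 = 1 ∨ (γ' (0, 1, 0)).2.1 = -1 := by
      have : ((γ' (0, 1, 0)).2.1) * ((γ' (0, 1, 0)).2.1) = 1 := by
        refine mul_left_cancel₀ (mul_ne_zero two_ne_zero hn) ?_
        linear_combination h6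
      exact mul_self_eq_one_iff.mp this
    rcases a2 with a2 | a2
    · have h2 : γ' (0, 1, 0) = (0, 1, 0) := by
        ext
        · exact a1
        · exact a2
        · exact a3
      rw [hN.eq_of_basis h1' h2 h0']
      exact Gen.id
    · refine Gen.of_rev (rev_dual n) ?_
      have hM := (nice_dual n).comp hN
      have e := hM.eq_of_basis (by change ((γ' (-1, 0, 0)).1, -(γ' (-1, 0, 0)).2.1, (γ' (-1, 0, 0)).2.2) = _; rw [h1']; simp)
        (by change ((γ' (0, 1, 0)).1, -(γ' (0, 1, 0)).2.1, (γ' (0, 1, 0)).2.2) = _; rw [a1, a2, a3]; simp)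
        (by change ((γ' (0, 0, 1)).1, -(γ' (0, 0, 1)).2.1, (γ' (0, 0, 1)).2.2) = _; rw [h0']; simp)
      rw [e]
      exact Gen.id
  rcases Int.eq_one_or_neg_one_of_mul_eq_neg_one hs with h7 | h7
  · exact key γ h (by ext; exacts [h0, hc, h7])
  · refine Gen.of_neg (key _ ((nice_neg n).comp h) ?_)
    ext
    · simp [h0]
    · simp [hc]
    · simp [h7]

theorem gen_of_covered {n : ℤ} (hn : n ≠ 0) (hcov : Covered n) :
    ∀ (N : ℕ) (γ : Vec → Vec), Nice n γ → (γ (0, 0, 1)).1.natAbs ≤ N → Gen n γ := by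
  intro N
  induction N with
  | zero =>
    intro γ h h0
    exact gen_base hn h (Int.natAbs_eq_zero.mp (Nat.le_zero.mp h0))
  | succ N ih =>
    intro γ h h0
    by_cases hr : (γ (0, 0, 1)).1 = 0
    · exact gen_base hn h hr
    · obtain ⟨f, hf, hlt⟩ := hcov γ h hr
      exact Gen.of_rev hf (ih _ (hf.1.nice.comp h) (by omega))

theorem gen_of_nice {n : ℤ} (hn : n ≠ 0) (hcov : Covered n) {γ : Vec → Vec} (h : Nice n γ) :
    Gen n γ := gen_of_covered hn hcov _ γ h le_rfl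

end Pool.Agent.Lib.MP_240120_one
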