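import Pool.Agent.Lib.MP_240120_one.Cover

set_option autoImplicit false

/-!
# The certificates
-/

namespace Pool.Agent.Lib.MP_240120_one

/-- the certificates for the degrees `2 n` such that `X_0(n) / w_n` has genus zero -/
def table : List (ℤ × List Entry) := [
  (1, [
    ⟨[.line (-1), .refl 1 1 (-1) 0], 1, 2⟩]),
  (2, [
    ⟨[.line (-1), .refl 1 1 (-1) 1], 1, 2⟩]),
  (3, [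
    ⟨[.line (-1), .refl 1 1 (-1) 2], 1, 2⟩]),
  (4, [
    ⟨[.line (-1), .refl 1 1 (-1) 3], 1, 2⟩]),
  (5, [
    ⟨[.line (-1), .refl 1 1 (-1) 4], 1, 3⟩,
    ⟨[.dual, .refl 1 2 (-1) 2], 1, 2⟩]),
  (6, [
    ⟨[.line (-1), .refl 1 1 (-1) 5], 1, 3⟩,
    ⟨[.dual, .line 1, .tran 2 1 3 0 1 6], 1, 2⟩]),
  (7, [
    ⟨[.line (-1), .refl 1 1 (-1) 6], 1, 3⟩,
    ⟨[.dual, .refl 1 2 (-1) 3], 1, 2⟩]),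
  (8, [
    ⟨[.line (-1), .refl 1 1 (-1) 7], 1, 3⟩,
    ⟨[.dual, .line 1, .tran 2 1 4 (-1) 0 2], 1, 2⟩]),
  (9, [
    ⟨[.line (-1), .refl 1 1 (-1) 8], 1, 3⟩,
    ⟨[.dual, .refl 1 2 (-1) 4], 1, 2⟩]),
  (10, [
    ⟨[.line (-1), .refl 1 1 (-1) 9], 1, 4⟩,
    ⟨[.line (-1), .refl 1 3 (-2) 13], 2, 5⟩,
    ⟨[.dual, .line 1, .tran 2 1 5 0 1 10], 1, 2⟩]),
  (11, [
    ⟨[.line (-1), .refl 1 1 (-1) 10], 1, 4⟩,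
    ⟨[.line (-1), .refl (-1) 3 (-2) 15], 2, 5⟩,
    ⟨[.dual, .refl 1 2 (-1) 5], 1, 2⟩]),
  (12, [
    ⟨[.line (-1), .refl 1 1 (-1) 11], 1, 4⟩,
    ⟨[.line (-1), .refl (-1) 7 (-5) 43], 2, 7⟩,
    ⟨[.tran 3 1 4 0 (-1) (-8)], 1, 3⟩,
    ⟨[.dual, .line 1, .tran 2 1 6 (-1) 0 3], 1, 2⟩]),
  (13, [
    ⟨[.line (-1), .refl 1 1 (-1) 12], 1, 4⟩,
    ⟨[.line (-1), .refl 1 3 (-2) 17], 2, 5⟩,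
    ⟨[.dual, .refl 1 2 (-1) 6], 1, 2⟩]),
  (14, [
    ⟨[.line (-1), .refl 1 1 (-1) 13], 1, 4⟩,
    ⟨[.line (-1), .refl (-1) 3 (-2) 19], 2, 5⟩,
    ⟨[.line (-1), .refl 1 5 (-3) 25], 3, 7⟩,
    ⟨[.dual, .line 1, .tran 2 1 7 0 1 14], 1, 2⟩]),
  (15, [
    ⟨[.line (-1), .refl 1 1 (-1) 14], 1, 4⟩,
    ⟨[.line (-1), .refl (-1) 4 (-3) 34], 3, 10⟩,
    ⟨[.tran 3 1 5 0 (-1) (-10)], 1, 3⟩,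
    ⟨[.tran 3 1 5 0 1 10], 3, 8⟩,
    ⟨[.dual, .refl 1 2 (-1) 7], 1, 2⟩]),
  (16, [
    ⟨[.line (-1), .refl 1 1 (-1) 15], 1, 4⟩,
    ⟨[.line (-1), .refl 1 3 (-2) 21], 5, 12⟩,
    ⟨[.dual, .line 1, .tran 2 1 8 (-1) 0 4], 1, 2⟩]),
  (17, [
    ⟨[.line (-1), .refl 1 1 (-1) 16], 1, 5⟩,
    ⟨[.line (-1), .refl 1 4 (-3) 38], 2, 7⟩,
    ⟨[.line (-1), .refl (-1) 3 (-2) 23], 2, 5⟩,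
    ⟨[.dual, .refl 1 2 (-1) 8], 1, 2⟩]),
  (18, [
    ⟨[.line (-1), .refl 1 1 (-1) 17], 2, 9⟩,
    ⟨[.tran 3 1 6 1 0 (-2)], 1, 3⟩,
    ⟨[.tran 3 1 6 (-1) 0 2], 4, 9⟩,
    ⟨[.dual, .line 1, .tran 2 1 9 0 1 18], 1, 2⟩]),
  (19, [
    ⟨[.line (-1), .refl 1 1 (-1) 18], 1, 5⟩,
    ⟨[.line (-1), .refl (-1) 4 (-3) 43], 2, 7⟩,
    ⟨[.line (-1), .refl 1 3 (-2) 25], 2, 5⟩,
    ⟨[.dual, .refl 1 2 (-1) 9], 1, 2⟩]),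
  (20, [
    ⟨[.line (-1), .refl 1 1 (-1) 19], 1, 5⟩,
    ⟨[.line (-1), .refl (-1) 9 (-7) 109], 3, 13⟩,
    ⟨[.tran 4 1 5 0 (-1) (-10)], 1, 4⟩,
    ⟨[.tran 4 1 5 0 1 10], 3, 11⟩,
    ⟨[.line (-1), .refl (-1) 3 (-2) 27], 11, 27⟩,
    ⟨[.dual, .line 1, .tran 2 1 10 (-1) 0 5], 1, 2⟩]),
  (21, [
    ⟨[.line (-1), .refl 1 1 (-1) 20], 1, 5⟩,
    ⟨[.line (-1), .refl 1 4 (-3) 47], 2, 7⟩,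
    ⟨[.line (-1), .refl (-1) 10 (-7) 103], 4, 13⟩,
    ⟨[.tran 3 1 7 0 (-1) (-14)], 1, 3⟩,
    ⟨[.tran 3 1 7 0 1 14], 4, 11⟩,
    ⟨[.line (-1), .refl (-1) 5 (-3) 38], 2, 5⟩,
    ⟨[.dual, .refl 1 2 (-1) 10], 1, 2⟩]),
  (23, [
    ⟨[.line (-1), .refl 1 1 (-1) 22], 1, 5⟩,
    ⟨[.line (-1), .refl (-1) 4 (-3) 52], 2, 7⟩,
    ⟨[.line (-1), .refl (-1) 3 (-2) 31], 2, 5⟩,
    ⟨[.dual, .refl 1 2 (-1) 11], 1, 2⟩]),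
  (24, [
    ⟨[.line (-1), .refl 1 1 (-1) 23], 1, 5⟩,
    ⟨[.dual, .refl (-1) 5 (-1) 5, .line (-1), .refl 1 1 (-1) 23], 1, 4⟩,
    ⟨[.tran 4 1 6 (-2) 0 3], 2, 7⟩,
    ⟨[.tran 4 1 6 (-2) 0 3, .line (-1), .refl (-1) 5 (-4) 77], 3, 10⟩,
    ⟨[.tran 3 1 8 0 (-1) (-16), .line (-1), .refl (-1) 11 (-7) 107], 4, 13⟩,
    ⟨[.tran 3 1 8 0 (-1) (-16)], 1, 3⟩,
    ⟨[.refl (-1) 11 4 35, .line (-1), .refl 1 5 (-3) 43], 3, 8⟩,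
    ⟨[.line (-1), .refl 1 5 (-3) 43], 2, 5⟩,
    ⟨[.line (-1), .refl (-1) 7 (-4) 55], 3, 7⟩,
    ⟨[.dual, .line 1, .tran 2 1 12 (-1) 0 6], 1, 2⟩]),
  (25, [
    ⟨[.line (-1), .refl 1 1 (-1) 24], 1, 5⟩,
    ⟨[.line (-1), .refl 1 4 (-3) 56], 3, 10⟩,
    ⟨[.line (-1), .refl 1 3 (-2) 33], 2, 5⟩,
    ⟨[.dual, .refl 1 2 (-1) 12], 1, 2⟩]),
  (26, [
    ⟨[.line (-1), .refl 1 1 (-1) 25], 1, 6⟩,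
    ⟨[.line (-1), .refl 1 5 (-4) 83], 3, 13⟩,
    ⟨[.refl (-1) 7 2 15, .line (-1), .refl (-1) 3 (-2) 35], 4, 13⟩,
    ⟨[.line (-1), .refl (-1) 3 (-2) 35], 3, 8⟩,
    ⟨[.line (-1), .refl (-1) 5 (-3) 47], 2, 5⟩,
    ⟨[.refl (-1) 5 2 21, .line (-1), .refl (-1) 3 (-2) 35], 6, 13⟩,
    ⟨[.dual, .line 1, .tran 2 1 13 0 1 26], 1, 2⟩]),
  (27, [
    ⟨[.line (-1), .refl 1 1 (-1) 26], 3, 16⟩,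
    ⟨[.line (-1), .refl (-1) 26 (-21) 458], 17, 86⟩,
    ⟨[.tran 9 2 12 (-3) (-1) (-8)], 2, 9⟩,
    ⟨[.line (-1), .refl (-1) 4 (-3) 61], 2, 7⟩,
    ⟨[.tran 3 1 9 1 0 (-3)], 1, 3⟩,
    ⟨[.tran 3 1 9 (-1) 0 3], 13, 32⟩,
    ⟨[.dual, .refl 1 2 (-1) 13], 1, 2⟩]),
  (29, [
    ⟨[.line (-1), .refl 1 1 (-1) 28], 1, 6⟩,
    ⟨[.line (-1), .refl (-1) 5 (-4) 93], 2, 9⟩,
    ⟨[.line (-1), .refl 1 4 (-3) 65], 2, 7⟩,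
    ⟨[.line (-1), .refl (-1) 3 (-2) 39], 3, 8⟩,
    ⟨[.line (-1), .refl 1 5 (-3) 52], 3, 7⟩,
    ⟨[.dual, .refl 1 2 (-1) 14], 1, 2⟩]),
  (31, [
    ⟨[.line (-1), .refl 1 1 (-1) 30], 1, 6⟩,
    ⟨[.line (-1), .refl 1 5 (-4) 99], 2, 9⟩,
    ⟨[.line (-1), .refl (-1) 4 (-3) 70], 2, 7⟩,
    ⟨[.line (-1), .refl 1 3 (-2) 41], 3, 8⟩,
    ⟨[.line (-1), .refl (-1) 5 (-3) 56], 3, 7⟩,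
    ⟨[.dual, .refl 1 2 (-1) 15], 1, 2⟩]),
  (32, [
    ⟨[.line (-1), .refl 1 1 (-1) 31], 1, 6⟩,
    ⟨[.line (-1), .refl (-1) 17 (-14) 369], 2, 11⟩,
    ⟨[.tran 16 3 18 8 1 3], 3, 16⟩,
    ⟨[.tran 4 1 8 1 0 (-2)], 1, 4⟩,
    ⟨[.tran 4 1 8 (-1) 0 2], 5, 16⟩,
    ⟨[.line (-1), .refl (-1) 3 (-2) 43], 5, 13⟩,
    ⟨[.tran 8 3 36 2 1 15], 15, 37⟩,
    ⟨[.line (-1), .refl 1 7 (-4) 73], 3, 7⟩,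
    ⟨[.line (-1), .refl (-1) 9 (-5) 89], 4, 9⟩,
    ⟨[.dual, .line 1, .tran 2 1 16 (-1) 0 8], 1, 2⟩]),
  (35, [
    ⟨[.line (-1), .refl 1 1 (-1) 34], 1, 6⟩,
    ⟨[.line (-1), .refl (-1) 6 (-5) 146], 4, 21⟩,
    ⟨[.tran 5 1 7 0 (-1) (-14)], 1, 5⟩,
    ⟨[.tran 5 1 7 0 1 14], 4, 19⟩,
    ⟨[.line (-1), .refl (-1) 4 (-3) 79], 2, 7⟩,
    ⟨[.line (-1), .refl (-1) 3 (-2) 47], 7, 18⟩,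
    ⟨[.tran 5 2 28 0 (-1) (-28)], 2, 5⟩,
    ⟨[.tran 5 2 28 0 1 28], 9, 22⟩,
    ⟨[.line (-1), .refl (-1) 12 (-7) 143], 3, 7⟩,
    ⟨[.dual, .refl 1 2 (-1) 17], 1, 2⟩]),
  (36, [
    ⟨[.line (-1), .refl 1 1 (-1) 35], 1, 6⟩,
    ⟨[.line (-1), .refl 1 5 (-4) 115], 7, 30⟩,
    ⟨[.refl (-1) 13 3 25, .line (-1), .refl 1 5 (-4) 115], 1, 4⟩,
    ⟨[.tran 4 1 9 0 1 18], 5, 19⟩,
    ⟨[.tran 3 1 12 1 0 (-4), .line (-1), .refl (-1) 5 (-3) 65], 13, 42⟩,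
    ⟨[.tran 3 1 12 1 0 (-4)], 1, 3⟩,
    ⟨[.tran 3 1 12 (-1) 0 4], 7, 18⟩,
    ⟨[.line (-1), .refl (-1) 5 (-3) 65], 13, 30⟩,
    ⟨[.tran 12 5 75 4 2 35, .line (-1), .refl (-1) 5 (-3) 65], 19, 42⟩,
    ⟨[.dual, .line 1, .tran 2 1 18 (-1) 0 9], 1, 2⟩]),
  (39, [
    ⟨[.line (-1), .refl 1 1 (-1) 38], 2, 13⟩,
    ⟨[.refl (-1) 5 1 8, .line (-1), .refl (-1) 4 (-3) 88], 1, 5⟩,
    ⟨[.line (-1), .refl (-1) 5 (-4) 125], 2, 9⟩,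
    ⟨[.line (-1), .refl (-1) 4 (-3) 88], 2, 7⟩,
    ⟨[.line (-1), .refl 1 10 (-7) 191], 4, 13⟩,
    ⟨[.refl (-1) 16 5 61, .line (-1), .refl 1 10 (-7) 191], 1, 3⟩,
    ⟨[.refl (-1) 8 3 44, .line (-1), .refl 1 5 (-3) 70], 5, 13⟩,
    ⟨[.refl 1 5 2 31, .dual, .refl 1 2 (-1) 19], 3, 7⟩,
    ⟨[.dual, .refl 1 2 (-1) 19], 1, 2⟩]),
  (41, [
    ⟨[.line (-1), .refl 1 1 (-1) 40], 1, 7⟩,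
    ⟨[.line (-1), .refl (-1) 6 (-5) 171], 2, 11⟩,
    ⟨[.line (-1), .refl 1 5 (-4) 131], 2, 9⟩,
    ⟨[.line (-1), .refl 1 4 (-3) 92], 2, 7⟩,
    ⟨[.line (-1), .refl (-1) 3 (-2) 55], 3, 8⟩,
    ⟨[.line (-1), .refl (-1) 5 (-3) 74], 3, 7⟩,
    ⟨[.dual, .refl 1 2 (-1) 20], 1, 2⟩]),
  (47, [
    ⟨[.line (-1), .refl 1 1 (-1) 46], 1, 7⟩,
    ⟨[.line (-1), .refl (-1) 6 (-5) 196], 1, 6⟩,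
    ⟨[.dual, .refl (-1) 6 (-1) 8, .line (-1), .refl 1 1 (-1) 46], 2, 11⟩,
    ⟨[.line (-1), .refl 1 11 (-9) 346], 4, 21⟩,
    ⟨[.line (-1), .refl (-1) 36 (-29) 1098], 5, 26⟩,
    ⟨[.refl (-1) 9 2 21, .line (-1), .refl (-1) 4 (-3) 106], 2, 9⟩,
    ⟨[.line (-1), .refl (-1) 4 (-3) 106], 2, 7⟩,
    ⟨[.line (-1), .refl (-1) 3 (-2) 63], 3, 8⟩,
    ⟨[.refl (-1) 8 3 53, .line (-1), .refl (-1) 3 (-2) 63], 21, 52⟩,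
    ⟨[.line (-1), .refl 1 22 (-13) 361], 7, 17⟩,
    ⟨[.line (-1), .refl (-1) 12 (-7) 192], 3, 7⟩,
    ⟨[.dual, .refl 1 2 (-1) 23], 1, 2⟩]),
  (49, [
    ⟨[.line (-1), .refl 1 1 (-1) 48], 1, 7⟩,
    ⟨[.line (-1), .refl 1 6 (-5) 204], 4, 21⟩,
    ⟨[.line (-1), .refl (-1) 5 (-4) 157], 8, 35⟩,
    ⟨[.line (-1), .refl 1 4 (-3) 110], 2, 7⟩,
    ⟨[.line (-1), .refl 1 3 (-2) 65], 8, 21⟩,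
    ⟨[.line (-1), .refl 1 5 (-3) 88], 3, 7⟩,
    ⟨[.dual, .refl 1 2 (-1) 24], 1, 2⟩]),
  (50, [
    ⟨[.line (-1), .refl 1 1 (-1) 49], 1, 8⟩,
    ⟨[.line (-1), .refl 1 7 (-6) 257], 2, 13⟩,
    ⟨[.tran 5 1 10 1 0 (-2), .line (-1), .refl 1 17 (-13) 497], 4, 25⟩,
    ⟨[.tran 5 1 10 1 0 (-2)], 1, 5⟩,
    ⟨[.tran 5 1 10 (-1) 0 2], 6, 25⟩,
    ⟨[.tran 10 3 45 4 1 12, .refl (-1) 51 16 251, .line (-1), .refl (-1) 3 (-2) 67], 7, 25⟩,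
    ⟨[.tran 10 3 45 4 1 12, .line (-1), .refl (-1) 3 (-2) 67], 3, 10⟩,
    ⟨[.line (-1), .refl (-1) 3 (-2) 67], 3, 8⟩,
    ⟨[.tran 5 2 40 (-2) (-1) (-24)], 2, 5⟩,
    ⟨[.tran 5 2 40 2 1 24], 11, 25⟩,
    ⟨[.tran 5 2 40 2 1 24, .refl (-1) 19 7 129, .line (-1), .refl (-1) 3 (-2) 67], 12, 25⟩,
    ⟨[.dual, .line 1, .tran 2 1 25 0 1 50], 1, 2⟩]),
  (59, [
    ⟨[.line (-1), .refl 1 1 (-1) 58], 1, 8⟩,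
    ⟨[.refl (-1) 6 1 10, .refl (-1) 5 1 12, .line (-1), .refl (-1) 4 (-3) 133], 1, 7⟩,
    ⟨[.refl (-1) 6 1 10, .line (-1), .refl (-1) 5 (-4) 189], 1, 6⟩,
    ⟨[.line (-1), .refl (-1) 6 (-5) 246], 2, 11⟩,
    ⟨[.line (-1), .refl (-1) 5 (-4) 189], 2, 9⟩,
    ⟨[.line (-1), .refl (-1) 4 (-3) 133], 3, 11⟩,
    ⟨[.refl (-1) 18 5 82, .refl (-1) 15 4 63, .line (-1), .refl (-1) 4 (-3) 133], 3, 10⟩,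
    ⟨[.line (-1), .refl (-1) 3 (-2) 79], 3, 8⟩,
    ⟨[.line (-1), .refl 1 5 (-3) 106], 5, 12⟩,
    ⟨[.line (-1), .refl (-1) 7 (-4) 135], 3, 7⟩,
    ⟨[.refl (-1) 9 4 105, .dual, .refl 1 2 (-1) 29], 4, 9⟩,
    ⟨[.dual, .refl 1 2 (-1) 29], 1, 2⟩]),
  (71, [
    ⟨[.line (-1), .refl 1 1 (-1) 70], 1, 9⟩,
    ⟨[.line (-1), .refl (-1) 8 (-7) 435], 1, 8⟩,
    ⟨[.dual, .refl (-1) 8 (-1) 9, .line (-1), .refl 1 1 (-1) 70], 2, 15⟩,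
    ⟨[.line (-1), .refl 1 7 (-6) 365], 1, 7⟩,
    ⟨[.refl (-1) 6 1 12, .line (-1), .refl 1 5 (-4) 227], 1, 6⟩,
    ⟨[.line (-1), .refl (-1) 6 (-5) 296], 2, 11⟩,
    ⟨[.line (-1), .refl 1 5 (-4) 227], 1, 5⟩,
    ⟨[.refl 1 5 1 14, .line (-1), .refl (-1) 4 (-3) 160], 2, 9⟩,
    ⟨[.line (-1), .refl (-1) 4 (-3) 160], 3, 11⟩,
    ⟨[.refl (-1) 24 7 145, .refl (-1) 10 3 64, .line (-1), .refl (-1) 3 (-2) 95], 2, 7⟩,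
    ⟨[.refl (-1) 10 3 64, .line (-1), .refl (-1) 3 (-2) 95], 3, 10⟩,
    ⟨[.line (-1), .refl (-1) 3 (-2) 95], 4, 11⟩,
    ⟨[.line (-1), .refl (-1) 8 (-5) 222], 3, 8⟩,
    ⟨[.refl (-1) 8 3 80, .line (-1), .refl (-1) 3 (-2) 95], 5, 13⟩,
    ⟨[.line (-1), .refl (-1) 5 (-3) 128], 5, 12⟩,
    ⟨[.refl (-1) 12 5 148, .refl (-1) 5 2 57, .line (-1), .refl (-1) 3 (-2) 95], 4, 9⟩,
    ⟨[.dual, .refl 1 2 (-1) 35], 1, 2⟩])]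

theorem table_check : table.all (fun x => check x.1 x.2) = true := by decide

end Pool.Agent.Lib.MP_240120_one
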